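import Pool.Agent.SCT.StmtsC

set_option autoImplicit false

/-!
# Row FLD of squad SCT (MP_02d4f5_ag): rationality from the two points
-/

namespace Pool.Agent.SCT.H81

open MvPolynomial Pool.Agent.SCT

/-- A cubic form at a multiple of a point. -/
lemma aeval_mul_three {k Ω ι : Type} [Field k] [Field Ω] [Algebra k Ω] [Fintype ι]
    (f : MvPolynomial ι k) (hf : f.IsHomogeneous 3) (c : Ω) (y : ι → Ω) :
    aeval (fun i => c * y i) f = c ^ 3 * aeval y f := by
  rw [aeval_def, aeval_def, eval₂_eq', eval₂_eq', Finset.mul_sum]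
  refine Finset.sum_congr rfl fun d hd => ?_
  have h1 : ∑ i, d i = 3 := by
    have := hf.degree_eq_sum_deg_support hd
    rw [this]
    refine (Finset.sum_subset (Finset.subset_univ _) ?_).symm
    intro i _ hi
    exact Finsupp.notMem_support_iff.1 hi
  have h2 : ∏ i, (c * y i) ^ d i = c ^ 3 * ∏ i, y i ^ d i := by
    simp only [mul_pow]
    rw [Finset.prod_mul_distrib, Finset.prod_pow_eq_pow_sum, h1]
  rw [h2]
  ring

/-- The proof of row FLD. -/
theorem fld (hfla : FlaStmt) (hflb : FlbStmt) : FldStmt := by
  intro k _ n f x w c hf hx hw hc hfx hcw hspan hdim hdx hdw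
  have h1 : rat k w ≤ rat k x := hfla k n x w hx hw hspan hdim hdx
  have h2 : rat k x ≤ rat k w := by
    refine hfla k n w x hw hx ?_ ?_ hdw
    · rw [Set.pair_comm]
      exact hspan
    · unfold DimLe2 at hdim ⊢
      rw [sup_comm]
      exact hdim
  have h3 : rat k x = rat k w := le_antisymm h2 h1
  obtain ⟨e⟩ := hflb k (FT k n) n w c hw hc hcw hdw
  obtain ⟨i, hi⟩ := Function.ne_iff.1 hx
  have hi' : x i ≠ 0 := hi
  -- the point with coordinates in `rat k x`
  have hmem : ∀ l, (x i)⁻¹ * x l ∈ rat k w := by
    intro l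
    rw [← h3, inv_mul_eq_div]
    exact IntermediateField.subset_adjoin _ _ ⟨l, i, rfl⟩
  let r : Fin (n + 2) → rat k w := fun l => ⟨(x i)⁻¹ * x l, hmem l⟩
  have hr : ∀ l, (rat k w).val (r l) = (x i)⁻¹ * x l := fun l => rfl
  have hri : r i = 1 := Subtype.ext (inv_mul_cancel₀ hi')
  have htop : rat k r = ⊤ := by
    have h4 : (rat k r).map (rat k w).val = (⊤ : IntermediateField k (rat k w)).map (rat k w).val := by
      rw [← rat_map]
      simp only [hr]
      rw [rat_smul (inv_ne_zero hi'), h3, ← AlgHom.fieldRange_eq_map, IntermediateField.fieldRange_val]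
    exact IntermediateField.map_injective _ h4
  refine ⟨fun l => e (r l), ?_, ?_, ?_⟩
  · intro h
    have h5 := congrFun h i
    simp only [hri, map_one, Pi.zero_apply] at h5
    exact one_ne_zero h5
  · have h6 : aeval (fun l => e (r l)) f = e (aeval r f) := by
      have h7 := (MvPolynomial.comp_aeval_apply r e.toAlgHom f)
      simpa using h7.symm
    have h8 : aeval r f = 0 := by
      apply Subtype.ext
      have h9 := MvPolynomial.comp_aeval_apply r (rat k w).val f
      change (rat k w).val (aeval r f) = 0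
      rw [h9]
      simp only [hr]
      rw [aeval_mul_three f hf, hfx, mul_zero]
    rw [h6, h8, map_zero]
  · have h10 := rat_map (k := k) e.toAlgHom r
    have h11 : (⊤ : IntermediateField k (rat k w)).map e.toAlgHom = ⊤ := by
      rw [← AlgHom.fieldRange_eq_map]
      exact AlgEquiv.fieldRange_eq_top e
    rw [htop, h11] at h10
    exact h10

end Pool.Agent.SCT.H81
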